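import Pool.Agent.helper58.FI3.SpecF3

/-!
# Project fi3 (MP_baa4d7_al), block F3, row FFF3: the alternating sum over all normal chains
-/

set_option autoImplicit false

namespace Pool.Agent.FI3

open Pool.Agent.helper58.DC Pool.Agent.DI Pool.Agent.GR Pool.Agent.OB Pool.Agent.DR Pool.Agent.FI

/-- the chain with one term -/
theorem FFF3_single {Γ : Type} [Group Γ] {p : ℕ} {L Z : Subgroup Γ} (hZ : IsPGroup p Z) (hZL : Z ≤ L) :
    NCh p L Z {Z} := by
  refine ⟨⟨?_, Finset.mem_singleton_self Z, ?_, ?_, ?_⟩, ?_⟩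
  · rw [Finset.coe_singleton]
    exact IsChain.singleton
  · intro Q hQ
    rw [Finset.mem_singleton.1 hQ]
  · intro Q hQ
    rw [Finset.mem_singleton.1 hQ]
    exact hZL
  · intro Q hQ
    rw [Finset.mem_singleton.1 hQ]
    exact hZ
  · intro Q hQ R hR _
    rw [Finset.mem_singleton.1 hQ, Finset.mem_singleton.1 hR]
    exact Subgroup.le_normalizer

/-- split off the chain with one term -/
theorem FFF3_core (hFKE3 : FKE3_stmt) {G : Type} [Group G] [Finite G] (p : ℕ)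
    (M : Ideal (integralClosure ℤ ℂ)) (L Z : Subgroup G) (θ : G → ℂ) (hZp : IsPGroup p Z) (hZL : Z ≤ L)
    (hc : ∀ l ∈ L, ∀ z ∈ Z, l * z = z * l) (c i f : ℤ) (hc0 : c ≠ 0)
    (hFF : c * i * ∑ᶠ C ∈ {C : Finset (Subgroup G) | NCh p L Z C ∧ C ≠ {Z}},
      (-1) ^ (C.card + 1) * ((Nat.card ↥(L ⊓ nrm C) : ℤ) * (BZ M L θ Z (L ⊓ nrm C)).ncard) =
      - ((Nat.card L : ℤ) * c * f)) :
    i * ∑ᶠ C ∈ {C : Finset (Subgroup G) | NCh p L Z C},
      (-1) ^ (C.card + 1) * ((Nat.card ↥(L ⊓ nrm C) : ℤ) * (BZ M L θ Z (L ⊓ nrm C)).ncard) =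
      (Nat.card L : ℤ) * (i * (XL M L θ Z 1).ncard - f) := by
  have hsp : {C : Finset (Subgroup G) | NCh p L Z C} =
      insert {Z} {C : Finset (Subgroup G) | NCh p L Z C ∧ C ≠ {Z}} := by
    ext C
    constructor
    · intro h
      by_cases hC : C = {Z}
      · exact Or.inl hC
      · exact Or.inr ⟨h, hC⟩
    · rintro (h | h)
      · rw [h]
        exact FFF3_single hZp hZL
      · exact h.1
  rw [hsp, finsum_mem_insert _ (fun h => h.2 rfl) (Set.toFinite _)]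
  have hnz : L ⊓ nrm ({Z} : Finset (Subgroup G)) = L := by
    rw [inf_eq_left]
    intro l hl
    unfold nrm
    simp only [Finset.mem_singleton, iInf_iInf_eq_left]
    rw [Subgroup.mem_normalizer_iff]
    intro z
    constructor
    · intro hz
      rw [hc l hl z hz, mul_inv_cancel_right]
      exact hz
    · intro hz
      have h2 := hc l hl _ hz
      have h3 : l * (l * z * l⁻¹) = l * z := by
        rw [h2]
        group
      have h4 : l * z * l⁻¹ = z := mul_left_cancel h3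
      rwa [h4] at hz
  have hBX : BZ M L θ Z L = XL M L θ Z 1 := by
    ext ψ
    constructor
    · rintro ⟨h1, h2, h3⟩
      exact ⟨⟨h1, h2⟩, (hFKE3 G L Z hZL (fun z hz k hk => hc k hk z hz) ψ h1).2.1 h3⟩
    · rintro ⟨⟨h1, h2⟩, h3⟩
      exact ⟨h1, h2, (hFKE3 G L Z hZL (fun z hz k hk => hc k hk z hz) ψ h1).2.2 h3⟩
  rw [hnz, hBX, Finset.card_singleton]
  have h9 : i * ∑ᶠ C ∈ {C : Finset (Subgroup G) | NCh p L Z C ∧ C ≠ {Z}},
      (-1) ^ (C.card + 1) * ((Nat.card ↥(L ⊓ nrm C) : ℤ) *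
        (BZ M L θ Z (L ⊓ nrm C)).ncard) = - ((Nat.card L : ℤ) * f) := by
    apply mul_left_cancel₀ hc0
    linear_combination hFF
  rw [mul_add, h9]
  ring

theorem FFF3 (hFFS3 : FFS3_stmt) (hFZC3 : FZC3_stmt) (hFKE3 : FKE3_stmt) : FFF3_stmt := by
  intro p M hS G _ _ D x θ χ lg P hP hSg
  obtain ⟨c1, c2, c3, c4, c5, c6, c7⟩ := hFZC3 p M hS G D x θ χ lg.lo P hP
  obtain ⟨hPZ, hZY, hZD, hDL, hDp, hTL, hTD, hZp, hYD⟩ := c1
  have hFF := hFFS3 p M hS G D x θ χ lg P hP hSg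
  refine FFF3_core hFKE3 p M (cz P) (Zc D (cz P)) θ hZp (hZD.le.trans hDL) (fun l hl => (c2 l hl).1)
    (Nat.card (cz D)) _ _ (by exact_mod_cast Nat.card_pos.ne') ?_
  rw [c7] at hFF
  push_cast at hFF
  exact hFF

end Pool.Agent.FI3
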